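import Pool.Agent.H68.NCK.Lib

/-! Row DTA. -/

set_option autoImplicit false

open Pool.Agent.H48.ER Pool.Agent.H50.NC

namespace Pool.Agent.H68.NCK

theorem pf_DTA : T_DTA := by
  intro V G a b n P i T t h ht htP
  obtain ⟨j, k, hji, hki, hjk, hl⟩ := exists_ne3 i
  have hP := h.pr.1
  have hn2 : 2 ≤ n i := by
    have h1 := hP.pos i
    have h2 := h.pr.2 i
    obtain ⟨m, hm⟩ := h2
    omega
  obtain ⟨v0, hv0, hva, hvb⟩ : ∃ v ∈ P i, v ≠ a i ∧ v ≠ b i := by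
    obtain ⟨g, g0, gn, gi, ga, hR⟩ := hP.ip i
    refine ⟨g 1, by rw [hR]; exact ⟨1, by omega, rfl⟩, ?_, ?_⟩
    · intro e
      have := gi 1 0 (by omega) (by omega) (e.trans g0.symm)
      omega
    · intro e
      have := gi 1 (n i) (by omega) le_rfl (e.trans gn.symm)
      omega
  have hv0T := h.int v0 hv0 hva hvb
  obtain ⟨m, R, hR, hRT⟩ := c_CON V G T t v0 h.cn ht hv0T
  obtain ⟨p, q, g, R1, R2, h1, _, hg, _, hU, _, _, hlast⟩ :=
    c_FST V G m t v0 R (P i) hR ⟨v0, hR.right_mem, hv0⟩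
  have h1R : R1 ⊆ T := fun v hv => hRT (hU ▸ Or.inl hv)
  have hgT : g ∈ T := h1R h1.right_mem
  have hgt : t ≠ g := fun e => htP (e ▸ hg)
  have hga : g ≠ a i := by
    rintro rfl
    exact (h.ne _ hgT (a j) ⟨j, hji, hP.a_mem j⟩).2 (hP.a_adj hji.symm)
  have hgb : g ≠ b i := by
    rintro rfl
    exact (h.ne _ hgT (b j) ⟨j, hji, hP.b_mem j⟩).2 (hP.b_adj hji.symm)
  have hp : p ≠ 0 := by
    rintro rfl
    exact hgt h1.eq_of_zero.1
  obtain ⟨p', rfl⟩ := Nat.exists_eq_succ_of_ne_zero hp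
  obtain ⟨x', hgx, hx', hD, _⟩ := h1.rev.tail
  refine ⟨R1 \ {g}, cn_of_IP hD, hD.right_mem, fun v hv => h1R hv.1, ?_, x', hD.left_mem, g, hg,
    hga, hgb, hgx.symm⟩
  intro d hd hdP
  exact hd.2 (hlast d hd.1 hdP)

end Pool.Agent.H68.NCK
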