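import Pool.Agent.H68.NCK.Lib

/-! Row EVS. -/

set_option autoImplicit false

open Pool.Agent.H48.ER Pool.Agent.H50.NC

namespace Pool.Agent.H68.NCK

variable {V : Type} {G : SimpleGraph V} {a b : Fin 3 → V} {n : Fin 3 → ℕ} {P : Fin 3 → Set V}
  {i : Fin 3} {S : Set V}

theorem mj_ex {w : V} (h : Mj G a i w) : ∃ j, j ≠ i ∧ G.Adj w (a j) := by
  rcases h with h | ⟨_, h⟩
  · obtain ⟨j, k, hji, _⟩ := exists_ne3 i
    exact ⟨j, hji, h j hji⟩
  · exact h

/-- both majors without common neighbours at the corners -/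
theorem mj_two {x y : V} (hx : Mj G a i x) (hy : Mj G a i y)
    (hno : ∀ j, j ≠ i → G.Adj x (a j) → G.Adj y (a j) → False) :
    G.Adj x (a i) ∧ G.Adj y (a i) ∧ ∃ j k, j ≠ i ∧ k ≠ i ∧ j ≠ k ∧ G.Adj x (a j) ∧ G.Adj y (a k) := by
  obtain ⟨j, hji, hj⟩ := mj_ex hx
  obtain ⟨k, hki, hk⟩ := mj_ex hy
  have hjk : j ≠ k := by
    rintro rfl
    exact hno j hji hj hk
  refine ⟨?_, ?_, j, k, hji, hki, hjk, hj, hk⟩
  · rcases hx with h | ⟨h, _⟩
    · exact absurd hk (fun e => hno k hki (h k hki) e)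
    · exact h
  · rcases hy with h | ⟨h, _⟩
    · exact absurd (h j hji) (fun e => hno j hji hj e)
    · exact h

theorem ev_AB (h : Sd G a b n P i S) (hG : NOH G) {l : ℕ} {x y : V} {R : Set V}
    (hxX : x ∉ Xr P i) (hyX : y ∉ Xr P i) (hR : IP G l x y R) (hl : 2 ≤ l)
    (hRS : ∀ v ∈ R, v = x ∨ v = y ∨ v ∈ S) (hx : Al G a P i x) (hy : Al G b P i y) : Even l := by
  obtain ⟨j, k, hji, hki, hjk, _⟩ := exists_ne3 i
  have hP := h.pr.1
  have hxy : x ≠ y := hR.ne (by omega)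
  have hdis : Disjoint R (P j) := by
    rw [Set.disjoint_left]
    intro v hv hvj
    rcases hRS v hv with rfl | rfl | hvS
    · exact hxX ⟨j, hji, hvj⟩
    · exact hyX ⟨j, hji, hvj⟩
    · exact (h.ne v hvS v ⟨j, hji, hvj⟩).1 rfl
  have := c_HOL V G l (n j) x y (a j) (b j) R (P j) hG hR (hP.ip j) hdis ?_ (by omega)
  · rwa [Nat.even_add, iff_true_right (h.pr.2 j)] at this
  · intro u hu v hv
    constructor
    · intro huv
      rcases hRS u hu with rfl | rfl | huS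
      · obtain ⟨j', hj', rfl⟩ := (hx v ⟨j, hji, hv⟩).1 huv
        have : j' = j := hP.rung (hP.a_mem j') hv
        exact Or.inl ⟨rfl, by rw [this]⟩
      · obtain ⟨j', hj', rfl⟩ := (hy v ⟨j, hji, hv⟩).1 huv
        have : j' = j := hP.rung (hP.b_mem j') hv
        exact Or.inr ⟨rfl, by rw [this]⟩
      · exact absurd huv (h.ne u huS v ⟨j, hji, hv⟩).2
    · rintro (⟨rfl, rfl⟩ | ⟨rfl, rfl⟩)
      · exact (hx _ ⟨j, hji, hv⟩).2 ⟨j, hji, rfl⟩
      · exact (hy _ ⟨j, hji, hv⟩).2 ⟨j, hji, rfl⟩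

theorem ev_MM (hP : Prism G a b n P) (hG : NOH G) {x y : V} (hxy : ¬ G.Adj x y)
    (hne : x ≠ y)
    (hno : ∀ v, v ∈ Xr P i → G.Adj v x → G.Adj v y → False) (hxa : Mj G a i x)
    (hxb : Mj G b i x) (hya : Mj G a i y) (hyb : Mj G b i y) : False := by
  obtain ⟨_, _, j, k, hji, hki, hjk, hj, hk⟩ := mj_two hxa hya fun j hji h1 h2 =>
    hno (a j) ⟨j, hji, hP.a_mem j⟩ h1.symm h2.symm
  obtain ⟨hxi, hyi, _⟩ := mj_two hxb hyb fun j hji h1 h2 =>
    hno (b j) ⟨j, hji, hP.b_mem j⟩ h1.symm h2.symm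
  have hxk : ¬ G.Adj x (a k) := fun e => hno (a k) ⟨k, hki, hP.a_mem k⟩ e.symm hk.symm
  have hyj : ¬ G.Adj y (a j) := fun e => hno (a j) ⟨j, hji, hP.a_mem j⟩ hj.symm e.symm
  have hcj : ∀ q, q ≠ i → ¬ G.Adj (b i) (a q) := by
    intro q hq e
    rcases (hP.adj i q hq.symm _ (hP.b_mem i) _ (hP.a_mem q)).1 e with ⟨e1, _⟩ | ⟨_, e1⟩
    · exact hP.a_ne_b i i e1.symm
    · exact hP.a_ne_b q q e1
  have e1 : IP G 1 (a j) (a k) {a j, a k} := IP.edge (hP.a_adj hjk)
  have hxk' : x ≠ a k := by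
    rintro rfl
    exact hxy hk.symm
  have hyj' : y ≠ a j := by
    rintro rfl
    exact hxy hj
  have e2 : IP G 2 x (a k) (insert x {a j, a k}) := by
    refine e1.cons ?_ ?_
    · rintro (e | e)
      · exact hj.ne e
      · exact hxk' e
    · rintro w (rfl | e)
      · exact ⟨fun _ => rfl, fun _ => hj⟩
      · rw [Set.mem_singleton_iff.1 e]
        exact ⟨fun h => absurd h hxk, fun h => absurd (h ▸ hj) hxk⟩
  have e3 : IP G 3 x y (insert y (insert x {a j, a k})) := by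
    refine e2.snoc ?_ ?_
    · rintro (e | e | e)
      · exact hne e.symm
      · exact hyj' e
      · exact hk.ne e
    · rintro w (rfl | rfl | e)
      · exact ⟨fun h => absurd h.symm hxy, fun h => absurd (h ▸ hk : G.Adj y w).symm hxy⟩
      · exact ⟨fun h => absurd h hyj, fun h => absurd (h ▸ hk) hyj⟩
      · rw [Set.mem_singleton_iff.1 e]
        exact ⟨fun _ => rfl, fun _ => hk⟩
  have := hG 3 x y (b i) _ e3 (by omega) ?_ hxi.symm hyi.symm ?_
  · exact absurd this (by decide)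
  · rintro (e | e | e | e)
    · exact hyi.ne e.symm
    · exact hxi.ne e.symm
    · exact hP.a_ne_b j i e.symm
    · exact hP.a_ne_b k i (Set.mem_singleton_iff.1 e).symm
  · rintro w (rfl | rfl | rfl | e) hw
    · exact Or.inr rfl
    · exact Or.inl rfl
    · exact absurd hw (hcj j hji)
    · rw [Set.mem_singleton_iff.1 e] at hw
      exact absurd hw (hcj k hki)

theorem pf_EVS (hTYP : T_TYP) : T_EVS := by
  intro V G a b n P i S hG hO h
  have hP := h.pr.1
  obtain ⟨j, k, hji, hki, hjk, hl⟩ := exists_ne3 i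
  have hXe : Xr P i = P j ∪ P k := by
    ext v
    constructor
    · rintro ⟨q, hq, hv⟩
      rcases hl q hq with rfl | rfl
      · exact Or.inl hv
      · exact Or.inr hv
    · rintro (hv | hv)
      · exact ⟨j, hji, hv⟩
      · exact ⟨k, hki, hv⟩
  have hnX : ∀ x, Nb G S x → x ∉ Xr P i := by
    rintro x ⟨_, s, hs, hxs⟩ hx
    exact (h.ne s hs x hx).2 hxs.symm
  refine ⟨h.cn, ?_, h.ne, ?_, ?_⟩
  · rw [hXe]
    exact cn_union (cn_of_IP (hP.ip j)) (cn_of_IP (hP.ip k)) (hP.a_mem j) (hP.a_mem k)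
      (hP.a_adj hjk)
  · rintro t ⟨ht, s, hs, hts⟩
    exact h.mx s hs t ht hts.symm
  · intro l x y R hx hy hxy hR hRS
    rcases Nat.lt_or_ge l 2 with hl2 | hl2
    · have : l = 0 := by
        have : l ≠ 1 := fun e => hxy (hR.adj_iff.2 e)
        omega
      subst this
      exact Even.zero
    have hne : x ≠ y := hR.ne (by omega)
    have com : ∀ v, v ∈ Xr P i → G.Adj v x → G.Adj v y → Even l := by
      intro v hv h1 h2
      refine hG l x y v R hR hl2 ?_ h1 h2 ?_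
      · intro hvR
        rcases hRS v hvR with rfl | rfl | hvS
        · exact G.loopless.irrefl _ h1
        · exact G.loopless.irrefl _ h2
        · exact (h.ne v hvS v hv).1 rfl
      · intro w hw hvw
        rcases hRS w hw with e | e | hwS
        · exact Or.inl e
        · exact Or.inr e
        · exact absurd hvw.symm (h.ne w hwS v hv).2
    have kAM : ∀ {x y : V} {c : Fin 3 → V}, (∀ j, c j ∈ P j) → Al G c P i x → Mj G c i y →
        ∃ v ∈ Xr P i, G.Adj v x ∧ G.Adj v y := by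
      intro x y c hc h1 h2
      obtain ⟨q, hq, hyq⟩ := mj_ex h2
      exact ⟨c q, ⟨q, hq, hc q⟩, ((h1 _ ⟨q, hq, hc q⟩).2 ⟨q, hq, rfl⟩).symm, hyq.symm⟩
    have kM : ∀ {x : V} {c : Fin 3 → V}, (∀ j, c j ∈ P j) → Al G c P i x → Mj G c i x := by
      intro x c hc h1
      exact Or.inl fun q hq => (h1 _ ⟨q, hq, hc q⟩).2 ⟨q, hq, rfl⟩
    rcases hTYP V G a b n P i S x hG hO h hx with hxt | hxt | ⟨hxa, hxb⟩ <;>
      rcases hTYP V G a b n P i S y hG hO h hy with hyt | hyt | ⟨hya, hyb⟩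
    · obtain ⟨v, hv, h1, h2⟩ := kAM hP.a_mem hxt (kM hP.a_mem hyt)
      exact com v hv h1 h2
    · exact ev_AB h hG (hnX x hx) (hnX y hy) hR hl2 hRS hxt hyt
    · obtain ⟨v, hv, h1, h2⟩ := kAM hP.a_mem hxt hya
      exact com v hv h1 h2
    · refine ev_AB h hG (hnX y hy) (hnX x hx) hR.rev hl2 ?_ hyt hxt
      intro v hv
      rcases hRS v hv with e | e | e
      · exact Or.inr (Or.inl e)
      · exact Or.inl e
      · exact Or.inr (Or.inr e)
    · obtain ⟨v, hv, h1, h2⟩ := kAM hP.b_mem hxt (kM hP.b_mem hyt)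
      exact com v hv h1 h2
    · obtain ⟨v, hv, h1, h2⟩ := kAM hP.b_mem hxt hyb
      exact com v hv h1 h2
    · obtain ⟨v, hv, h1, h2⟩ := kAM hP.a_mem hyt hxa
      exact com v hv h2 h1
    · obtain ⟨v, hv, h1, h2⟩ := kAM hP.b_mem hyt hxb
      exact com v hv h2 h1
    · by_cases hc : ∃ v ∈ Xr P i, G.Adj v x ∧ G.Adj v y
      · obtain ⟨v, hv, h1, h2⟩ := hc
        exact com v hv h1 h2
      · exact (ev_MM hP hG hxy hne (fun v hv h1 h2 => hc ⟨v, hv, h1, h2⟩) hxa hxb hya hyb).elim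

end Pool.Agent.H68.NCK
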