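import Pool.Agent.H50.NC.Targets

/-! Connected sets: paths and unions. -/

set_option autoImplicit false

open Pool.Agent.H48.ER Pool.Agent.H50.NC

namespace Pool.Agent.H68.NCK

variable {V : Type} {G : SimpleGraph V}

theorem cn_of_IP {n : ℕ} {x y : V} {R : Set V} (h : IP G n x y R) : Cn G R := by
  obtain ⟨g, g0, gn, gi, ga, hR⟩ := h
  intro X hXR ⟨v, hv⟩ hcl
  have hgR : ∀ i, i ≤ n → g i ∈ R := fun i hi => by rw [hR]; exact ⟨i, hi, rfl⟩
  have hv' := hXR hv
  rw [hR] at hv'
  obtain ⟨i0, hi0, rfl⟩ := hv'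
  have up : ∀ m, i0 + m ≤ n → g (i0 + m) ∈ X := by
    intro m
    induction m with
    | zero => intro _; exact hv
    | succ m ih =>
      intro hm
      refine hcl _ (ih (by omega)) _ (hgR _ hm) ?_
      rw [ga _ _ (by omega) hm]
      omega
  have dn : ∀ m, m ≤ i0 → g (i0 - m) ∈ X := by
    intro m
    induction m with
    | zero => intro _; exact hv
    | succ m ih =>
      intro hm
      refine hcl _ (ih (by omega)) _ (hgR _ (by omega)) ?_
      rw [ga _ _ (by omega) (by omega)]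
      omega
  apply Set.Subset.antisymm hXR
  intro w hw
  rw [hR] at hw
  obtain ⟨i, hi, rfl⟩ := hw
  by_cases h : i0 ≤ i
  · have := up (i - i0) (by omega)
    rwa [show i0 + (i - i0) = i by omega] at this
  · have := dn (i0 - i) (by omega)
    rwa [show i0 - (i0 - i) = i by omega] at this

theorem cn_union {A B : Set V} (hA : Cn G A) (hB : Cn G B) {u v : V} (hu : u ∈ A) (hv : v ∈ B)
    (h : G.Adj u v) : Cn G (A ∪ B) := by
  intro X hX hne hcl
  have kA : (X ∩ A).Nonempty → A ⊆ X := by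
    intro hn
    have e := hA (X ∩ A) Set.inter_subset_right hn fun p hp w hw hpw =>
      ⟨hcl p hp.1 w (Or.inl hw) hpw, hw⟩
    intro w hw
    rw [← e] at hw
    exact hw.1
  have kB : (X ∩ B).Nonempty → B ⊆ X := by
    intro hn
    have e := hB (X ∩ B) Set.inter_subset_right hn fun p hp w hw hpw =>
      ⟨hcl p hp.1 w (Or.inr hw) hpw, hw⟩
    intro w hw
    rw [← e] at hw
    exact hw.1
  apply Set.Subset.antisymm hX
  obtain ⟨w, hw⟩ := hne
  rcases hX hw with hwA | hwB
  · have h1 := kA ⟨w, hw, hwA⟩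
    have h2 := kB ⟨v, hcl u (h1 hu) v (Or.inr hv) h, hv⟩
    exact Set.union_subset h1 h2
  · have h2 := kB ⟨w, hw, hwB⟩
    have h1 := kA ⟨u, hcl v (h2 hv) u (Or.inl hu) h.symm, hu⟩
    exact Set.union_subset h1 h2

theorem exists_ne3 (i : Fin 3) : ∃ j k : Fin 3, j ≠ i ∧ k ≠ i ∧ j ≠ k ∧
    ∀ l : Fin 3, l ≠ i → l = j ∨ l = k := by
  fin_cases i
  · exact ⟨1, 2, by decide, by decide, by decide, by decide⟩
  · exact ⟨0, 2, by decide, by decide, by decide, by decide⟩
  · exact ⟨0, 1, by decide, by decide, by decide, by decide⟩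

end Pool.Agent.H68.NCK
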